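import Pool.Agent.Q123.SD.Main

/-!
Problem MP_3038d1_co (existence of symmetric designs), for symmetric designs whose blocks, possibly
together with the empty set and the set of all points, are closed under Boolean operations.
-/

set_option autoImplicit false

open Finset

namespace Pool.Agent.Results.MP_3038d1_co.BooleanClosure

/-- `F` is the set of the `v` blocks of a symmetric `(v, k, lam)`-design on the points `Fin v`. -/
def IsSymmetricDesign (v k lam : ℕ) (F : Finset (Finset (Fin v))) : Prop :=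
  ((∀ B ∈ F, B.card = k) ∧
    ∀ x y : Fin v, x ≠ y → (F.filter fun B => x ∈ B ∧ y ∈ B).card = lam) ∧ F.card = v

/-- The characteristic vector of a set of points. -/
def word {v : ℕ} (B : Finset (Fin v)) : Fin v → ZMod 2 := fun j => if j ∈ B then 1 else 0

/-- Boolean operations of arity `k`. -/
abbrev Op (k : ℕ) := (Fin k → ZMod 2) → ZMod 2

/-- The set of words `C` is closed under the operation `f`, applied coordinatewise. -/
def ClosedUnder {v k : ℕ} (f : Op k) (C : Finset (Fin v → ZMod 2)) : Prop :=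
  ∀ w : Fin k → Fin v → ZMod 2, (∀ i, w i ∈ C) → (fun j => f (fun i => w i j)) ∈ C

/-- After adding some (or none) of the two sets `∅` and `univ` to the blocks, they are closed
under all operations in `Φ`. -/
def Closed {v : ℕ} (Φ : ∀ k : ℕ, Set (Op k)) (F : Finset (Finset (Fin v))) : Prop :=
  ∃ E : Finset (Finset (Fin v)), E ⊆ {∅, univ} ∧ ∀ k, ∀ f ∈ Φ k, ClosedUnder f ((F ∪ E).image word)

/-- `f` is affine: a constant plus a sum of variables. -/
def IsAffine {k : ℕ} (f : Op k) : Prop :=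
  ∃ (c : ZMod 2) (s : Finset (Fin k)), ∀ x, f x = c + ∑ i ∈ s, x i

/-- `f` is affine and depends on at least two variables. -/
def IsProperSum {k : ℕ} (f : Op k) : Prop :=
  ∃ (c : ZMod 2) (s : Finset (Fin k)), 2 ≤ s.card ∧ ∀ x, f x = c + ∑ i ∈ s, x i

theorem result :
    ∀ (Φ : ∀ k : ℕ, Set (Op k)) (v k lam : ℕ), 1 ≤ lam → 2 ≤ k → k + 2 ≤ v →
    -- (1) an operation which is not affine, or the negation of a variable: there is no such design
    (((∃ l, ∃ f ∈ Φ l, ¬ IsAffine f) ∨ (∃ l, ∃ f ∈ Φ l, ∃ i, ∀ x, f x = 1 + x i)) →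
      ¬ ∃ F : Finset (Finset (Fin v)), IsSymmetricDesign v k lam F ∧ Closed Φ F) ∧
    -- (2) affine operations, one of them of at least two variables
    ((∀ l, ∀ f ∈ Φ l, IsAffine f) → (∃ l, ∃ f ∈ Φ l, IsProperSum f) →
      ((∃ F : Finset (Finset (Fin v)), IsSymmetricDesign v k lam F ∧ Closed Φ F) ↔
        ((∃ m, lam = 2 ^ m) ∧ v + 1 = 4 * lam ∧ k = 2 * lam ∧
          ∀ l, ∀ f ∈ Φ l, f (fun _ => 0) = 0) ∨
        ((∃ m, lam + 1 = 2 ^ m) ∧ v = 4 * lam + 3 ∧ k = 2 * lam + 1 ∧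
          ∀ l, ∀ f ∈ Φ l, f (fun _ => 1) = 1))) ∧
    -- (3) constants and variables: no condition
    ((∀ l, ∀ f ∈ Φ l, (∃ c, ∀ x, f x = c) ∨ ∃ i, ∀ x, f x = x i) →
      ∀ F : Finset (Finset (Fin v)), Closed Φ F) := by
  intro Φ v k lam hl hk hkv
  refine ⟨?_, ?_, ?_⟩
  · rintro (hΦ | hΦ) ⟨F, ⟨h, hb⟩, hC⟩
    · exact Q123.SD.case_not_affine hΦ h hl hk hkv hC
    · exact Q123.SD.symm_negation hΦ h hb hl hk hkv hC
  · intro hΦ hΦ2
    exact Q123.SD.symm_iff hΦ hΦ2 hl hk hkv
  · intro hΦ F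
    exact Q123.ST.case_trivial hΦ F

end Pool.Agent.Results.MP_3038d1_co.BooleanClosure
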