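import Pool.Agent.Q163.HD.Pal
import Pool.Agent.Q163.HD.TS
import Pool.Agent.Q163.HD.PowR
import Pool.Agent.Y342.ION.Final
import Pool.Agent.Y341.Had.Tower
import Pool.Agent.H114R2.Design

/-!
# Symmetric designs for the odd quarters of new orders of Hadamard matrices

Let `T n` be the tower of `n` twos (`T 0 = 1`) and `t ≥ 2 ^ C ^ (n + 1)`. The numbers
* `k = q + 2`, `q ≤ T n` a prime power, `q = -3` modulo `2 ^ t`,
* `k = u q`, `q ≤ T n` a prime power, `q = 1` modulo `2 ^ t`, `u` the order of four T-matrices over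
  a finite abelian group, in particular `u = 2 ^ a + 2 ^ b`,
* `k = w ^ r (w + 1) / 2`, `w = v ^ 2 ^ (j + 1)`, `v ≤ T n`, `v = -1` modulo `2 ^ t`,
and their products with the halves of the orders of Hadamard matrices, give symmetric designs with
Hadamard parameters `(4 k - 1, 2 k - 1, k - 1)`, with Menon parameters `(4 u², 2 u² - u, u² - u)`,
`u = 2 k`, and, if `4 k + 1` is a prime power, the infinite families with the parameters of Ionin
and Kharaghani for all the numbers `(4 k + 1) ^ 2 ^ a`.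
-/

set_option autoImplicit false

open Pool.Agent.H114R2

namespace Pool.Agent.Results.MP_3038d1_co.DesignsFromNewOrders

/-- `B` lists the `v` blocks of a symmetric `(v, k, l)`-design on the point set `Fin v`:
`k < v`, `0 < l`, every block has `k` points, every point is in `k` blocks, any two distinct points
are in exactly `l` common blocks (and any two distinct blocks have exactly `l` common points). -/
def IsSymmetricDesign (v k l : ℕ) (B : Fin v → Finset (Fin v)) : Prop :=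
  k < v ∧ 0 < l ∧ (∀ i, (B i).card = k) ∧
  (∀ x, (Finset.univ.filter (fun i => x ∈ B i)).card = k) ∧
  (∀ x y, x ≠ y → (Finset.univ.filter (fun i => x ∈ B i ∧ y ∈ B i)).card = l) ∧
  (∀ i j, i ≠ j → (B i ∩ B j).card = l)

/-- There is a symmetric `(v, k, l)`-design. -/
def HasDesign (v k l : ℕ) : Prop := ∃ B, IsSymmetricDesign v k l B

/-- There is a Hadamard matrix of order `N`. -/
def HadamardOrder (N : ℕ) : Prop :=
  ∃ H : Matrix (Fin N) (Fin N) ℤ, (∀ i j, H i j = 1 ∨ H i j = -1) ∧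
    H * H.transpose = ((N : ℕ) : ℤ) • 1

/-- There are four T-matrices of order `u`: four functions on an abelian group of order `u` with
values `0, 1, -1`, exactly one of them nonzero at every element, with total periodic autocorrelation
zero. -/
def TOrder (u : ℕ) : Prop :=
  ∃ (G : Type) (_ : AddCommGroup G) (_ : Fintype G) (T : Fin 4 → G → ℤ), Fintype.card G = u ∧
    (∀ g, ∃ j, (T j g = 1 ∨ T j g = -1) ∧ ∀ l, l ≠ j → T l g = 0) ∧
    ∀ d, d ≠ 0 → ∑ j, ∑ g, T j (g + d) * T j g = 0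

/-- The three families. -/
def InFamily (C k : ℕ) : Prop :=
  ∃ n t : ℕ, 2 ^ C ^ (n + 1) ≤ t ∧
    ((∃ q, IsPrimePow q ∧ q ≤ (fun x : ℕ => 2 ^ x)^[n] 1 ∧ 2 ^ t ∣ q + 3 ∧ k = q + 2) ∨
     (∃ q u, IsPrimePow q ∧ q ≤ (fun x : ℕ => 2 ^ x)^[n] 1 ∧ 2 ^ t ∣ q - 1 ∧
      (TOrder u ∨ ∃ a b, u = 2 ^ a + 2 ^ b) ∧ k = u * q) ∨
     ∃ v w j r, v ≤ (fun x : ℕ => 2 ^ x)^[n] 1 ∧ 2 ^ t ∣ v + 1 ∧ w = v ^ 2 ^ (j + 1) ∧
      2 * k = w ^ r * (w + 1))

theorem result : ∃ C : ℕ, ∀ k₀ m : ℕ, InFamily C k₀ → 0 < m → HadamardOrder (2 * m) →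
    ∀ k, k = k₀ * m →
      HasDesign (4 * k - 1) (2 * k - 1) (k - 1) ∧
      HasDesign (4 * (2 * k) ^ 2) (2 * (2 * k) ^ 2 - 2 * k) ((2 * k) ^ 2 - 2 * k) ∧
      (IsPrimePow (4 * k + 1) → ∀ a j h : ℕ, (4 * k + 1) ^ 2 ^ a = 2 * h + 1 →
        HasDesign (4 * h ^ 2 * ∑ i ∈ Finset.range (j + 1), (2 * h + 1) ^ (2 * i))
          ((2 * h + 1) ^ (2 * j) * (2 * h ^ 2 + h)) ((2 * h + 1) ^ (2 * j) * (h ^ 2 + h))) := by
  obtain ⟨C1, hC1, h1⟩ := Pool.Agent.Q163.HD.main_yam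
  obtain ⟨C2, hC2, h2⟩ := Pool.Agent.Q163.HD.main_uq
  obtain ⟨C3, hC3, h3⟩ := Pool.Agent.Q163.HD.main_powr
  have key : ∀ k₀, InFamily (C1 + C2 + C3) k₀ → 1 < k₀ ∧ HasHad (4 * k₀) := by
    rintro k₀ ⟨n, t, ht, h⟩
    have hb : ∀ C', C' ≤ C1 + C2 + C3 → 2 ^ C' ^ (n + 1) ≤ t := fun C' hC' =>
      (Nat.pow_le_pow_right (by norm_num) (Nat.pow_le_pow_left hC' _)).trans ht
    have ht0 : 1 < t := by
      refine lt_of_lt_of_le ?_ (hb C1 (by omega))
      exact Nat.one_lt_two_pow (by positivity)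
    rcases h with ⟨q, hq, hqn, hd, rfl⟩ | ⟨q, u, hq, hqn, hd, hu, rfl⟩ | ⟨v, w, j, r, hv, hd, hw, hk⟩
    · have := hq.one_lt
      exact ⟨by omega, h1 n q t hq hqn (hb C1 (by omega)) hd⟩
    · have hq1 := hq.one_lt
      have h4 := h2 n q t hq hqn (hb C2 (by omega)) hd
      rcases hu with ⟨G, _, _, T, hG, hT1, hT2⟩ | ⟨a, b, rfl⟩
      · have hG0 : 0 < u := by rw [← hG]; exact Fintype.card_pos
        refine ⟨by nlinarith, ?_⟩
        have h5 := h4 G T ⟨hT1, hT2⟩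
        rw [hG] at h5
        rw [← mul_assoc]
        exact h5
      · obtain ⟨L, hL⟩ : ∃ L, L = 2 ^ a + 2 ^ b := ⟨_, rfl⟩
        have hL0 : 0 < L := by rw [hL]; positivity
        have : NeZero L := ⟨hL0.ne'⟩
        obtain ⟨T, hT⟩ := Pool.Agent.Q163.HD.tmat_of (Pool.Agent.Q163.HD.golay a)
          (Pool.Agent.Q163.HD.golay b) L hL
        have h5 := h4 (ZMod L) T hT
        rw [ZMod.card] at h5
        rw [← hL, ← mul_assoc]
        exact ⟨by nlinarith, h5⟩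
    · have h4 := h3 n v t j r hv (hb C3 (by omega)) hd
      rw [← hw, ← hk] at h4
      have e : 2 * (2 * k₀) = 4 * k₀ := by ring
      rw [e] at h4
      refine ⟨?_, h4⟩
      have h5 : 2 ^ 2 ≤ 2 ^ t := Nat.pow_le_pow_right (by norm_num) ht0
      have h6 : 2 ^ t ≤ v + 1 := Nat.le_of_dvd (by omega) hd
      have h7 : 3 ≤ v := by omega
      have h8 : v ≤ w := by rw [hw]; exact Nat.le_self_pow (by positivity) v
      have h9 : 1 ≤ w ^ r := Nat.one_le_pow _ _ (by omega)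
      nlinarith
  refine ⟨C1 + C2 + C3, fun k₀ m hk₀ hm hH k hk => ?_⟩
  obtain ⟨h4, h5⟩ := key k₀ hk₀
  have hk1 : 1 < k := by
    rw [hk]
    exact lt_of_lt_of_le h4 (Nat.le_mul_of_pos_right k₀ hm)
  have h6 : HasHad (4 * k) := by
    have e1 : 4 * k₀ = 2 * (2 * k₀) := by ring
    have e2 : 4 * k = 2 * (2 * k₀ * m) := by rw [hk]; ring
    rw [e2]
    rw [e1] at h5
    exact Pool.Agent.Y341.Had.agayan h5 hH
  refine ⟨hadDesign_of_had hk1 h6, menon_of_had (by omega) ?_, ?_⟩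
  · have e : 2 * (2 * k) = 4 * k := by ring
    rw [e]
    exact h6
  · intro hpp a j h hh
    have h7 : (4 * k + 1) % 4 = 1 := by omega
    have h8 := (Pool.Agent.Y341.Had.tower_pow hpp h7 a).1
    have h9 := Pool.Agent.Y341.Had.tower hpp h7 (by rw [Nat.add_sub_cancel]; exact h6) a
    rw [hh] at h8 h9
    exact Pool.Agent.Y342.ION.ionin h8 h9 j

end Pool.Agent.Results.MP_3038d1_co.DesignsFromNewOrders
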