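import Pool.Agent.Q138.PS.UF
import Pool.Agent.Results.MP_3038d1_co.AlmostAllPoints
import Pool.Agent.Results.MP_3038d1_co.PermutationCharacters
import Pool.Agent.Results.MP_3038d1_co.PointTransitiveGroups
import Pool.Agent.Results.MP_3038d1_co.TransitiveHadamardDesigns

/-!
# Symmetric designs on `⌊α P(n)⌋` points

Let `q ≥ 2`. Outside a set of real numbers of Hausdorff dimension at most `q / (q + 1 / (q 2 ^ (q - 1)))` (that is
`8 / 9` for `q = 2`) every `α > 0` has the following property, for ALL integral polynomials `P` of degree `q`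
with positive leading coefficient and coefficients of size at most `N ^ η`: for all but `ε N` of the `n ≤ N` there is no symmetric
`(v, k, l)` design with `v = ⌊α P(n)⌋` points, `2 ≤ k ≤ v - 2`, except possibly designs with `v ≡ 3 (mod 4)` for which
`k (v - 1 - k)` or `(k - 1) (v - k)` is a perfect square, and the automorphism groups of these are restricted.
-/

set_option autoImplicit false

namespace Pool.Agent.Results.MP_3038d1_co.PointsAlongRealMultiples

open Finset Filter Topology
open Pool.Agent.Q138.PS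
open Pool.Agent.H177R2.SD (Exc)
open Pool.Agent.Results.MP_3038d1_co.PointTransitiveGroups (IsPointTransitiveDesign DominantPrimePower
  PrimeOutsideStabilizer)
open Pool.Agent.Results.MP_3038d1_co.PermutationCharacters (Good)

open Classical in
/-- the number of the `1 ≤ n ≤ N` for which `⌊α P(n)⌋` has the property `Z` -/
noncomputable def count (Z : ℕ → Prop) (α : ℝ) (P : Polynomial ℤ) (N : ℕ) : ℕ :=
  ((Icc 1 N).filter fun n : ℕ => Z ⌊α * ((P.eval (n : ℤ) : ℤ) : ℝ)⌋₊).card

/-- for some `η > 0` and all large `N`, for ALL `P ∈ ℤ[X]` of degree `q` with positive leading coefficient and coefficients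
of size at most `N ^ η`, at most `f N` of the `n ≤ N` are such that `⌊α P(n)⌋` has the property `Z` -/
def AtMost (q : ℕ) (α : ℝ) (Z : ℕ → Prop) (f : ℕ → ℝ) : Prop :=
  ∃ η : ℝ, 0 < η ∧ ∀ᶠ N : ℕ in atTop, ∀ P : Polynomial ℤ, P.natDegree = q → 0 < P.leadingCoeff →
    (∀ j, |((P.coeff j : ℤ) : ℝ)| ≤ (N : ℝ) ^ η) → (count Z α P N : ℝ) ≤ f N

/-- some symmetric `(v, k, lam)` design with `2 ≤ k ≤ v - 2` has a point-transitive group of automorphisms which has an
invariant partition into `m` classes with a dominant prime power in `m`, or for which a prime divisor of `v` does not divide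
the order of a stabilizer -/
def Transitive (v : ℕ) : Prop :=
  ∃ (k lam : ℕ) (B : Fin v → Finset (Fin v)) (H : Subgroup (Equiv.Perm (Fin v))), IsPointTransitiveDesign v k lam B H ∧
    (DominantPrimePower v H ∨ PrimeOutsideStabilizer v H)

/-- some symmetric `(4 n - 1, 2 n - 1, n - 1)` design, `n ≥ 2`, has a solvable point-transitive group of automorphisms -/
def Hadamard (n : ℕ) : Prop :=
  2 ≤ n ∧ ∃ (B : Fin (4 * n - 1) → Finset (Fin (4 * n - 1))) (H : Subgroup (Equiv.Perm (Fin (4 * n - 1)))),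
    (∀ i, (B i).card = 2 * n - 1) ∧
    (∀ x y, x ≠ y → (Finset.univ.filter (fun i => x ∈ B i ∧ y ∈ B i)).card = n - 1) ∧
    (∀ x y, ∃ h ∈ H, h x = y) ∧ (∀ h ∈ H, ∀ i, ∃ j, (B i).image h = B j) ∧ Group.IsSolvable H

theorem count_eq (Z : ℕ → Prop) (α : ℝ) (P : Polynomial ℤ) (N : ℕ) : (count Z α P N : ℝ) = cnP Z α P N := by
  classical
  unfold count cnP cn
  refine congrArg _ (congrArg _ ?_)
  ext n
  simp only [mem_filter]

/-- **Theorem.** Let `q ≥ 2`. There is a set `E` of Hausdorff dimension at most `q / (q + 1 / (q 2 ^ (q - 1)))` such that for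
each `α > 0` outside `E` and all `ε > 0`, uniformly in `P`, with `v = ⌊α P(n)⌋`:
(1) for at most `ε N` of the `n ≤ N` some symmetric `(v, k, l)` design with `2 ≤ k ≤ v - 2` is not of the type `v ≡ 3 (mod 4)`
with `k (v - 1 - k)` or `(k - 1) (v - k)` a perfect square;
(2) for at most `ε N` of the `n ≤ N` the number `v` is `Transitive`;
(3) for every `M ≥ 1`, for at most `ε N` of the `n ≤ N` the automorphism groups (of order composed of primes dividing `M`) of
the symmetric designs on `v` points do not have the permutation characters described by `Good M v`;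
(4) for at most `N (log N) ^ (ε - 1)` of the `n ≤ N` some Hadamard design on `4 v - 1` points has a solvable point-transitive
group of automorphisms. -/
theorem result (q : ℕ) (hq : 2 ≤ q) :
    ∃ E : Set ℝ, dimH E ≤ ENNReal.ofReal (q / (q + 1 / ((q : ℝ) * 2 ^ (q - 1)))) ∧ ∀ α : ℝ, 0 < α → α ∉ E →
      ∀ ε : ℝ, 0 < ε →
      AtMost q α Exc (fun N => ε * N) ∧
      AtMost q α Transitive (fun N => ε * N) ∧
      (∀ M : ℕ, 0 < M → AtMost q α (fun v => ¬ Good M v) (fun N => ε * N)) ∧
      AtMost q α Hadamard (fun N => N * (Real.log N) ^ (ε - 1)) := by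
  classical
  obtain ⟨E1, hE1, h1⟩ := zero_nat (ι := Unit) q hq (fun _ => Exc) (fun _ => by
    refine Pool.Agent.Results.MP_3038d1_co.AlmostAllPoints.result.congr fun y => ?_
    unfold cn
    congr 3)
  obtain ⟨E2, hE2, h2⟩ := zero_nat (ι := Unit) q hq (fun _ => Transitive) (fun _ =>
    zero_of _ Pool.Agent.Results.MP_3038d1_co.PointTransitiveGroups.result.1)
  obtain ⟨E3, hE3, h3⟩ := zero_nat (ι := ℕ) q hq (fun j v => ¬ Good (j + 1) v) (fun j =>
    zero_of _ (Pool.Agent.Results.MP_3038d1_co.PermutationCharacters.result (j + 1) (by omega)))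
  obtain ⟨E4, hE4, h4⟩ := exc_log (ι := Unit) q hq (fun _ => Hadamard)
  refine ⟨E1 ∪ (E2 ∪ (E3 ∪ E4)), ?_, fun α hα hαE ε hε => ?_⟩
  · rw [dimH_union, dimH_union, dimH_union]
    exact max_le hE1 (max_le hE2 (max_le hE3 hE4))
  simp only [Set.mem_union, not_or] at hαE
  obtain ⟨a1, a2, a3, a4⟩ := hαE
  refine ⟨?_, ?_, fun M hM => ?_, ?_⟩
  · obtain ⟨η, hη, h⟩ := h1 α hα a1 ()
    refine ⟨η, hη, ?_⟩
    filter_upwards [h ε hε] with N hN P hdeg hlead hco
    rw [count_eq]
    exact hN P hdeg hlead hco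
  · obtain ⟨η, hη, h⟩ := h2 α hα a2 ()
    refine ⟨η, hη, ?_⟩
    filter_upwards [h ε hε] with N hN P hdeg hlead hco
    rw [count_eq]
    exact hN P hdeg hlead hco
  · obtain ⟨j, rfl⟩ : ∃ j, M = j + 1 := ⟨M - 1, by omega⟩
    obtain ⟨η, hη, h⟩ := h3 α hα a3 j
    refine ⟨η, hη, ?_⟩
    filter_upwards [h ε hε] with N hN P hdeg hlead hco
    rw [count_eq]
    exact hN P hdeg hlead hco
  · obtain ⟨η, hη, h⟩ := h4 α hα a4 () 1 one_pos (fun e he => by
      obtain ⟨C, -, h5⟩ := Pool.Agent.Results.MP_3038d1_co.TransitiveHadamardDesigns.result e he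
      refine ⟨C, fun Y hY => le_trans ?_ (h5 Y hY)⟩
      rw [cn_ncard]
      refine Nat.cast_le.2 (Set.ncard_le_ncard ?_ ((Set.finite_Iic Y).subset fun n hn => hn.1))
      rintro n ⟨-, g1, g2, g3⟩
      exact ⟨g1, g2, g3⟩) ε hε
    refine ⟨η, hη, ?_⟩
    filter_upwards [h] with N hN P hdeg hlead hco
    rw [count_eq]
    exact hN P hdeg hlead hco

end Pool.Agent.Results.MP_3038d1_co.PointsAlongRealMultiples
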