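import Pool.Agent.Q123.VC.PG
import Pool.Agent.Q123.VC.Small

/-!
Problem MP_3038d1_co (existence of symmetric designs): the parameters of a symmetric design against
its VC dimension.
-/

set_option autoImplicit false

open Finset

namespace Pool.Agent.Results.MP_3038d1_co.VCDimension

/-- `B` lists the `v` blocks of a symmetric `(v, k, lam)`-design on the points `Fin v`. -/
def IsSymmetricDesign (v k lam : ℕ) (B : Fin v → Finset (Fin v)) : Prop :=
  (∀ i, (B i).card = k) ∧ ∀ x y, x ≠ y → (univ.filter fun i => x ∈ B i ∧ y ∈ B i).card = lam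

/-- Every subset of `Z` is the trace of a block. -/
def Shattered {v : ℕ} (B : Fin v → Finset (Fin v)) (Z : Finset (Fin v)) : Prop :=
  ∀ T ⊆ Z, ∃ i, Z ∩ B i = T

/-- `D` is the largest size of a shattered set. -/
def HasVCDimension {v : ℕ} (B : Fin v → Finset (Fin v)) (D : ℕ) : Prop :=
  (∃ Z, Shattered B Z ∧ Z.card = D) ∧ ∀ Z, Shattered B Z → Z.card ≤ D

theorem result :
    -- (1) the parameters of a symmetric design of VC dimension `D`
    (∀ (v k lam : ℕ) (B : Fin v → Finset (Fin v)) (D : ℕ), IsSymmetricDesign v k lam B →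
      1 ≤ lam → 2 ≤ k → 2 * k ≤ v → HasVCDimension B D →
        ((k - lam : ℕ) : ℝ) ^ D ≤ 2 * (2 * Real.exp 1) ^ D * (v : ℝ) ^ (D - 1) ∧
        (lam : ℝ) ^ D ≤ 4 * (16 * Real.exp 1 ^ 2) ^ D * (v : ℝ) ^ (D - 2) ∧
        2 ≤ D ∧ 2 ^ D ≤ 4 * lam ∧ (D = 2 ↔ lam = 1)) ∧
    -- (2) the exponents are optimal for every `D`
    (∀ D q : ℕ, 2 ≤ D → IsPrimePow q → ∃ (v k lam : ℕ) (B : Fin v → Finset (Fin v)),
      IsSymmetricDesign v k lam B ∧ 1 ≤ lam ∧ 2 ≤ k ∧ 2 * k ≤ v ∧ HasVCDimension B D ∧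
        q ^ D ≤ v ∧ v ≤ 2 * q ^ D ∧ k - lam = q ^ (D - 1) ∧ q ^ (D - 2) ≤ lam) := by
  refine ⟨?_, ?_⟩
  · intro v k lam B D h hl hk hkv hD
    have hD2 : 2 ≤ D := by
      obtain ⟨Z, hZ, hZc⟩ := Q123.VC.shat_two h hl hk hkv
      rw [← hZc]
      exact hD.2 Z hZ
    obtain ⟨Z, hZ, hZc⟩ := hD.1
    have h4 : 2 ^ D ≤ 4 * lam := by
      rw [← hZc]
      exact Q123.VC.two_pow_le h hZ (by omega)
    refine ⟨Q123.VC.order_bound h hk (by omega) (by omega) hD.2, ?_, hD2, h4, ?_, ?_⟩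
    · have h1 := Q123.VC.lam_bound h hk hkv (by omega) hD.2
      have hv0 : (0 : ℝ) < v := by
        have : 0 < v := by omega
        exact_mod_cast this
      obtain ⟨m, rfl⟩ : ∃ m, D = m + 2 := ⟨D - 2, by omega⟩
      rw [Nat.add_sub_cancel]
      have h2 : (lam : ℝ) ^ (m + 2) * (v : ℝ) ^ 2 ≤
          4 * (16 * Real.exp 1 ^ 2) ^ (m + 2) * (v : ℝ) ^ m * (v : ℝ) ^ 2 := by
        calc (lam : ℝ) ^ (m + 2) * (v : ℝ) ^ 2
            ≤ 4 * (16 * Real.exp 1 ^ 2) ^ (m + 2) * (v : ℝ) ^ (m + 2) := h1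
          _ = _ := by ring
      exact le_of_mul_le_mul_right h2 (by positivity)
    · intro hD'
      by_contra hne
      obtain ⟨Z, hZ, hZc⟩ := Q123.VC.shat_three h hk hkv (by omega)
      have := hD.2 Z hZ
      omega
    · intro hl1
      rw [hl1] at h4
      by_contra hne
      have : 2 ^ 3 ≤ 2 ^ D := Nat.pow_le_pow_right (by norm_num) (by omega)
      omega
  · intro D q hD hq
    obtain ⟨v, k, lam, B, h, hl, hk, hkv, hn, hv, hlq, hmax, hex⟩ := Q123.VC.exists_pg hD hq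
    have hq2 : 2 ≤ q := hq.two_le
    have h1 : ∀ j, ∑ i ∈ range (j + 1), q ^ i ≤ 2 * q ^ j := by
      intro j
      induction j with
      | zero => simp
      | succ j ih =>
        rw [sum_range_succ, pow_succ q j]
        have : q ^ j * 2 ≤ q ^ j * q := Nat.mul_le_mul_left _ hq2
        omega
    have h2 := h1 D
    have h3 : q ^ D ≤ v := by
      rw [hv, sum_range_succ]
      omega
    exact ⟨v, k, lam, B, h, hl, hk, hkv, ⟨hex, hmax⟩, h3, by omega, hn, hlq⟩

end Pool.Agent.Results.MP_3038d1_co.VCDimension
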